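import Pool.Agent.U26.HM.Sphere

/-! Homogeneous spherical codes (helper26). -/

set_option autoImplicit false

open Filter Pool.Agent.H818R2
open scoped InnerProductSpace Topology

namespace Pool.Agent.U26.HM

theorem code_card_le {θ : ℝ} (hs : 0 < Real.sin (θ / 2)) (n : ℕ)
    (X : Finset (EuclideanSpace ℝ (Fin n))) (hX : IsSphCode n θ X) :
    (X.card : ℝ) ≤ Real.exp (Real.log ((1 + 2 * Real.sin (θ / 2)) / Real.sin (θ / 2)) * n) := by
  have hK : 0 < (1 + 2 * Real.sin (θ / 2)) / Real.sin (θ / 2) := by positivity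
  rcases Nat.eq_zero_or_pos n with rfl | hn
  · have : X = ∅ := by
      rw [Finset.eq_empty_iff_forall_notMem]
      intro x hx
      have h1 := hX.1 x hx
      have h2 : x = 0 := Subsingleton.elim _ _
      rw [h2, norm_zero] at h1
      exact zero_ne_one h1
    rw [this]
    simp
  · have : NeZero n := ⟨by omega⟩
    have h3 : (X.card : ℝ) ≤ sphMax n θ := by exact_mod_cast le_sphMax hs hX
    have h4 := sphMax_le (d := n) hs
    have h5 : (sphMax n θ : ℝ) ≤ ((1 + 2 * Real.sin (θ / 2)) / Real.sin (θ / 2)) ^ n := by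
      refine h4.trans ?_
      have := rho_le_one n
      have h6 : 0 ≤ ((1 + 2 * Real.sin (θ / 2)) / Real.sin (θ / 2)) ^ n := by positivity
      nlinarith
    rw [mul_comm, Real.exp_nat_mul, Real.exp_log hK]
    exact h3.trans h5

/-- every spherical code has a homogeneous part of positive proportion -/
theorem code_part {θ : ℝ} (hs : 0 < Real.sin (θ / 2)) (m : ℕ) : ∃ c : ℝ, 0 < c ∧ ∀ (n : ℕ)
    (X : Finset (EuclideanSpace ℝ (Fin n))), IsSphCode n θ X →
    ∃ Y, Y ⊆ X ∧ Homogeneous m Y ∧ c * X.card ≤ Y.card := by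
  obtain ⟨c, hc, h⟩ := exists_homogeneous
    (Real.log ((1 + 2 * Real.sin (θ / 2)) / Real.sin (θ / 2))) m
  exact ⟨c, hc, fun n X hX => h n X hX.1 (code_card_le hs n X hX)⟩

theorem sub_code {n : ℕ} {θ : ℝ} {X Y : Finset (EuclideanSpace ℝ (Fin n))}
    (hX : IsSphCode n θ X) (hYX : Y ⊆ X) : IsSphCode n θ Y :=
  ⟨fun x hx => hX.1 x (hYX hx), fun x hx y hy => hX.2 x (hYX hx) y (hYX hy)⟩

/-- an optimal code -/
theorem exists_optimal {θ : ℝ} (hs : 0 < Real.sin (θ / 2)) (n : ℕ) :
    ∃ P : Finset (EuclideanSpace ℝ (Fin n)), IsSphCode n θ P ∧ P.card = sphMax n θ := by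
  rcases Nat.eq_zero_or_pos n with rfl | hn
  · refine ⟨∅, ⟨by simp, by simp⟩, ?_⟩
    have h1 : {m | ∃ P : Finset (EuclideanSpace ℝ (Fin 0)), IsSphCode 0 θ P ∧ P.card = m} =
        {0} := by
      ext m
      constructor
      · rintro ⟨P, hP, rfl⟩
        have : P = ∅ := by
          rw [Finset.eq_empty_iff_forall_notMem]
          intro x hx
          have h1 := hP.1 x hx
          have h2 : x = 0 := Subsingleton.elim _ _
          rw [h2, norm_zero] at h1
          exact zero_ne_one h1
        rw [this]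
        rfl
      · rintro rfl
        exact ⟨∅, ⟨by simp, by simp⟩, rfl⟩
    unfold sphMax
    rw [h1, csSup_singleton]
    rfl
  · have : NeZero n := ⟨by omega⟩
    obtain ⟨P, hP, hPc⟩ := Nat.sSup_mem (sph_nonempty n θ) (sph_bdd hs)
    exact ⟨P, hP, hPc⟩

theorem sphMax_pos' {n : ℕ} (hn : 0 < n) {θ : ℝ} (hs : 0 < Real.sin (θ / 2)) :
    0 < sphMax n θ := by
  have : NeZero n := ⟨by omega⟩
  have h1 : ({EuclideanSpace.single (0 : Fin n) (1 : ℝ)} : Finset (EuclideanSpace ℝ (Fin n))).card
      ≤ sphMax n θ := by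
    apply le_sphMax hs
    refine ⟨?_, ?_⟩
    · intro x hx
      rw [Finset.mem_singleton.1 hx]
      simp
    · intro x hx y hy hxy
      exact absurd ((Finset.mem_singleton.1 hx).trans (Finset.mem_singleton.1 hy).symm) hxy
  rw [Finset.card_singleton] at h1
  exact h1

/-- **Sequences of homogeneous codes of optimal exponent.** -/
theorem exists_seq {θ : ℝ} (hs : 0 < Real.sin (θ / 2)) :
    ∃ Y : (n : ℕ) → Finset (EuclideanSpace ℝ (Fin n)), (∀ n, IsSphCode n θ (Y n)) ∧
      (∀ m, ∀ᶠ n : ℕ in atTop, Homogeneous m (Y n)) ∧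
      Tendsto (fun n : ℕ => Real.logb 2 (Y n).card / n - Real.logb 2 (sphMax n θ) / n)
        atTop (𝓝 0) := by
  classical
  choose c hc hcY using fun m => code_part hs m
  choose P hP hPc using fun n => exists_optimal hs n
  -- the level of homogeneity in dimension `n`
  let Q : ℕ → ℕ → Prop := fun n m => -Real.logb 2 (c m) * m ≤ n
  let μ : ℕ → ℕ := fun n => Nat.findGreatest (Q n) n
  have hμ : ∀ n, Q n (μ n) := by
    intro n
    refine Nat.findGreatest_spec (P := Q n) (m := 0) (Nat.zero_le n) ?_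
    simp [Q]
  have hμ2 : Tendsto μ atTop atTop := by
    rw [tendsto_atTop]
    intro m
    obtain ⟨N, hN⟩ := exists_nat_ge (-Real.logb 2 (c m) * m)
    filter_upwards [eventually_ge_atTop (max N m)] with n hn
    refine Nat.le_findGreatest ((le_max_right _ _).trans hn) ?_
    have h1 : (N : ℝ) ≤ n := by exact_mod_cast (le_max_left _ _).trans hn
    exact hN.trans h1
  choose Y hYP hYh hYc using fun n => hcY (μ n) n (P n) (hP n)
  refine ⟨Y, fun n => sub_code (hP n) (hYP n), fun m => ?_, ?_⟩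
  · filter_upwards [hμ2.eventually_ge_atTop m] with n hn
    exact (hYh n).anti hn
  · have hlow : ∀ᶠ n : ℕ in atTop, -(1 / (μ n : ℝ)) ≤
        Real.logb 2 (Y n).card / n - Real.logb 2 (sphMax n θ) / n := by
      filter_upwards [eventually_ge_atTop 1, hμ2.eventually_ge_atTop 1] with n hn hmu
      have hnpos : (0 : ℝ) < n := by exact_mod_cast hn
      have hmpos : (0 : ℝ) < μ n := by exact_mod_cast hmu
      have h1 : (0 : ℝ) < sphMax n θ := by exact_mod_cast sphMax_pos' hn hs
      have h2 : c (μ n) * sphMax n θ ≤ (Y n).card := by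
        have := hYc n
        rwa [hPc] at this
      have h3 : Real.logb 2 (c (μ n)) + Real.logb 2 (sphMax n θ) ≤ Real.logb 2 (Y n).card := by
        rw [← Real.logb_mul (hc _).ne' h1.ne']
        exact Real.logb_le_logb_of_le (by norm_num) (mul_pos (hc _) h1) h2
      have h4 : -(1 / (μ n : ℝ)) * n ≤ Real.logb 2 (c (μ n)) := by
        have h5 : -Real.logb 2 (c (μ n)) * μ n ≤ n := hμ n
        have h6 : -Real.logb 2 (c (μ n)) ≤ n / μ n := by rwa [le_div_iff₀ hmpos]
        have h7 : -(1 / (μ n : ℝ)) * n = -((n : ℝ) / μ n) := by ring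
        rw [h7]
        linarith
      rw [← sub_div, le_div_iff₀ hnpos]
      linarith
    have hup : ∀ᶠ n : ℕ in atTop,
        Real.logb 2 (Y n).card / n - Real.logb 2 (sphMax n θ) / n ≤ 0 := by
      filter_upwards [eventually_ge_atTop 1] with n hn
      have : NeZero n := ⟨by omega⟩
      have hnpos : (0 : ℝ) < n := by exact_mod_cast hn
      have h1 : (0 : ℝ) < sphMax n θ := by exact_mod_cast sphMax_pos' hn hs
      have h2 : ((Y n).card : ℝ) ≤ sphMax n θ := by
        exact_mod_cast le_sphMax hs (sub_code (hP n) (hYP n))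
      rw [← sub_div]
      apply div_nonpos_of_nonpos_of_nonneg _ hnpos.le
      rcases Nat.eq_zero_or_pos (Y n).card with h0 | h0
      · rw [h0, Nat.cast_zero, Real.logb_zero, zero_sub, neg_nonpos]
        apply Real.logb_nonneg (by norm_num)
        exact_mod_cast sphMax_pos' hn hs
      · have := Real.logb_le_logb_of_le (b := 2) (by norm_num)
          (show (0 : ℝ) < (Y n).card by exact_mod_cast h0) h2
        linarith
    have h0 : Tendsto (fun n : ℕ => -(1 / (μ n : ℝ))) atTop (𝓝 0) := by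
      have h1 : Tendsto (fun n : ℕ => (1 : ℝ) / (μ n : ℝ)) atTop (𝓝 0) :=
        tendsto_one_div_atTop_nhds_zero_nat.comp hμ2
      simpa using h1.neg
    exact tendsto_of_tendsto_of_tendsto_of_le_of_le' h0 tendsto_const_nhds hlow hup

end Pool.Agent.U26.HM
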