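import Mathlib

/-! A regularisation lemma: for finitely many families of tuples on a finite set `V` there is a
subset of positive proportion in which all points are in about the same number of tuples of each of
the families (helper26). -/

set_option autoImplicit false

open Finset

namespace Pool.Agent.U26.HM

open Classical in
/-- The tuples of the family `F` all whose entries are in `Z`. -/
noncomputable def inn {V : Type*} {h : ℕ} (F : (Fin h → V) → Prop) (Z : Finset V) :
    Finset (Fin h → V) :=
  (Fintype.piFinset fun _ => Z).filter F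

open Classical in
/-- The number of the tuples of the family `F` with entries in `Z`, one of them `v`. -/
noncomputable def dg {V : Type*} {h : ℕ} (F : (Fin h → V) → Prop) (Z : Finset V) (v : V) : ℕ :=
  ((inn F Z).filter fun t => ∃ i, t i = v).card

section

variable {V : Type*} {h : ℕ} {F : (Fin h → V) → Prop}

theorem mem_inn {Z : Finset V} {t : Fin h → V} : t ∈ inn F Z ↔ (∀ i, t i ∈ Z) ∧ F t := by
  classical
  unfold inn
  rw [Finset.mem_filter, Fintype.mem_piFinset]

theorem inn_mono {Y Z : Finset V} (hYZ : Y ⊆ Z) : inn F Y ⊆ inn F Z := by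
  intro t ht
  rw [mem_inn] at ht ⊢
  exact ⟨fun i => hYZ (ht.1 i), ht.2⟩

theorem dg_mono {Y Z : Finset V} (hYZ : Y ⊆ Z) (v : V) : dg F Y v ≤ dg F Z v := by
  classical
  unfold dg
  exact Finset.card_le_card (Finset.filter_subset_filter _ (inn_mono hYZ))

open Classical in
theorem card_inn_insert {Z : Finset V} {v : V} :
    (inn F (insert v Z)).card ≤ (inn F Z).card + dg F (insert v Z) v := by
  unfold dg
  refine le_trans (Finset.card_le_card ?_) (Finset.card_union_le _ _)
  intro t ht
  rw [Finset.mem_union]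
  by_cases hv : ∃ i, t i = v
  · right
    rw [Finset.mem_filter]
    exact ⟨ht, hv⟩
  · left
    rw [mem_inn] at ht ⊢
    refine ⟨fun i => ?_, ht.2⟩
    rcases Finset.mem_insert.1 (ht.1 i) with h1 | h1
    · exact absurd ⟨i, h1⟩ hv
    · exact h1

theorem sum_dg (Z : Finset V) : ∑ v ∈ Z, dg F Z v ≤ h * (inn F Z).card := by
  classical
  unfold dg
  have h1 : ∑ v ∈ Z, ((inn F Z).filter fun t => ∃ i, t i = v).card =
      ∑ t ∈ inn F Z, (Z.filter fun v => ∃ i, t i = v).card := by
    simp only [Finset.card_filter]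
    exact Finset.sum_comm
  rw [h1]
  have h2 : ∀ t ∈ inn F Z, (Z.filter fun v => ∃ i, t i = v).card ≤ h := by
    intro t _
    have h3 : (Z.filter fun v => ∃ i, t i = v) ⊆ Finset.univ.image t := by
      intro v hv
      rw [Finset.mem_filter] at hv
      obtain ⟨i, hi⟩ := hv.2
      rw [Finset.mem_image]
      exact ⟨i, Finset.mem_univ _, hi⟩
    refine (Finset.card_le_card h3).trans (Finset.card_image_le.trans ?_)
    rw [Finset.card_univ, Fintype.card_fin]
  calc ∑ t ∈ inn F Z, (Z.filter fun v => ∃ i, t i = v).card ≤ ∑ _t ∈ inn F Z, h :=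
        Finset.sum_le_sum h2
    _ = h * (inn F Z).card := by rw [Finset.sum_const, smul_eq_mul, mul_comm]

theorem inn_empty (hh : 0 < h) : inn F (∅ : Finset V) = ∅ := by
  rw [Finset.eq_empty_iff_forall_notMem]
  intro t ht
  rw [mem_inn] at ht
  exact absurd (ht.1 ⟨0, hh⟩) (Finset.notMem_empty _)

theorem dg_le (Z : Finset V) (v : V) : dg F Z v ≤ Z.card ^ h := by
  classical
  unfold dg inn
  refine (Finset.card_filter_le _ _).trans ((Finset.card_filter_le _ _).trans ?_)
  rw [Fintype.card_piFinset, Finset.prod_const, Finset.card_univ, Fintype.card_fin]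

end

variable {V ι : Type*} {a : ι → ℕ} (F : (k : ι) → (Fin (a k) → V) → Prop)

/-- `Y` is good for the thresholds `τ`. -/
def Good (τ : ι → ℝ) (Y : Finset V) : Prop := ∀ k, ∀ v ∈ Y, τ k ≤ dg (F k) Y v

theorem exists_largest (τ : ι → ℝ) (Z : Finset V) : ∃ Y, Y ⊆ Z ∧ Good F τ Y ∧
    ∀ Y', Y' ⊆ Z → Good F τ Y' → Y' ⊆ Y := by
  classical
  let G : Finset (Finset V) := Z.powerset.filter (Good F τ)
  refine ⟨G.sup id, ?_, ?_, ?_⟩
  · intro v hv
    obtain ⟨Y, hY, hvY⟩ := Finset.mem_sup.1 hv
    rw [Finset.mem_filter, Finset.mem_powerset] at hY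
    exact hY.1 hvY
  · intro k v hv
    obtain ⟨Y, hY, hvY⟩ := Finset.mem_sup.1 hv
    have hY' := (Finset.mem_filter.1 hY).2
    refine (hY' k v hvY).trans ?_
    exact_mod_cast dg_mono (F := F k) (Finset.le_sup (f := id) hY) v
  · intro Y' h1 h2
    have : Y' ∈ G := by
      rw [Finset.mem_filter, Finset.mem_powerset]
      exact ⟨h1, h2⟩
    exact Finset.le_sup (f := id) this

open Classical in
theorem exists_colour (ha : ∀ k, 0 < a k) (hι : Nonempty ι) (τ : ι → ℝ) (Z Y₀ : Finset V)
    (hmax : ∀ Y', Y' ⊆ Z → Good F τ Y' → Y' ⊆ Y₀) (hgood : Good F τ Y₀) :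
    ∀ S : Finset V, Y₀ ⊆ S → S ⊆ Z → ∃ c : V → ι,
      (∀ v ∈ S \ Y₀, 0 < τ (c v)) ∧
      ∀ k, ((inn (F k) ((S \ Y₀).filter fun v => c v = k)).card : ℝ) ≤
        τ k * ((S \ Y₀).filter fun v => c v = k).card := by
  intro S
  induction S using Finset.strongInduction with
  | H S ih =>
    intro h1 h2
    by_cases hS : S ⊆ Y₀
    · have h3 : S \ Y₀ = ∅ := Finset.sdiff_eq_empty_iff_subset.2 hS
      refine ⟨fun _ => hι.some, ?_, fun k => ?_⟩
      · intro v hv
        rw [h3] at hv
        exact absurd hv (Finset.notMem_empty _)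
      · rw [h3, Finset.filter_empty, inn_empty (ha k)]
        simp
    · have h3 : ¬ Good F τ S := fun h => hS (hmax S h2 h)
      unfold Good at h3
      push Not at h3
      obtain ⟨k, v, hv, hlt⟩ := h3
      have hvY : v ∉ Y₀ := by
        intro hvY
        have h4 := hgood k v hvY
        have h5 : (dg (F k) Y₀ v : ℝ) ≤ dg (F k) S v := by exact_mod_cast dg_mono h1 v
        linarith
      have h6 : Y₀ ⊆ S.erase v := fun x hx => Finset.mem_erase.2 ⟨fun h => hvY (h ▸ hx), h1 hx⟩
      obtain ⟨c, hc1, hc2⟩ := ih (S.erase v) (Finset.erase_ssubset hv) h6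
        ((Finset.erase_subset _ _).trans h2)
      have h7 : S \ Y₀ = insert v (S.erase v \ Y₀) := by
        ext x
        simp only [Finset.mem_sdiff, Finset.mem_insert, Finset.mem_erase]
        constructor
        · rintro ⟨hx1, hx2⟩
          by_cases hxv : x = v
          · exact Or.inl hxv
          · exact Or.inr ⟨⟨hxv, hx1⟩, hx2⟩
        · rintro (rfl | ⟨⟨_, hx1⟩, hx2⟩)
          · exact ⟨hv, hvY⟩
          · exact ⟨hx1, hx2⟩
      have hτ : 0 < τ k := lt_of_le_of_lt (Nat.cast_nonneg _) hlt
      have h8 : v ∉ S.erase v \ Y₀ := by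
        rw [Finset.mem_sdiff, Finset.mem_erase]
        exact fun h => h.1.1 rfl
      refine ⟨Function.update c v k, ?_, ?_⟩
      · intro x hx
        by_cases hxv : x = v
        · rw [hxv, Function.update_self]
          exact hτ
        · rw [Function.update_of_ne hxv]
          rw [h7, Finset.mem_insert] at hx
          exact hc1 x (hx.resolve_left hxv)
      · intro k'
        have h9 : ((S.erase v \ Y₀).filter fun x => Function.update c v k x = k') =
            (S.erase v \ Y₀).filter fun x => c x = k' := by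
          apply Finset.filter_congr
          intro x hx
          have hxv : x ≠ v := by
            intro h
            rw [h] at hx
            exact h8 hx
          rw [Function.update_of_ne hxv]
        rw [h7, Finset.filter_insert, Function.update_self, h9]
        by_cases hk : k = k'
        · subst hk
          rw [if_pos rfl]
          have h10 : v ∉ (S.erase v \ Y₀).filter fun x => c x = k :=
            fun h => h8 (Finset.mem_filter.1 h).1
          rw [Finset.card_insert_of_notMem h10]
          have h11 := card_inn_insert (F := F k) (v := v)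
            (Z := (S.erase v \ Y₀).filter fun x => c x = k)
          have h12 : dg (F k) (insert v ((S.erase v \ Y₀).filter fun x => c x = k)) v ≤
              dg (F k) S v := by
            apply dg_mono
            intro x hx
            rcases Finset.mem_insert.1 hx with rfl | hx
            · exact hv
            · exact Finset.mem_of_mem_erase (Finset.mem_sdiff.1 (Finset.mem_filter.1 hx).1).1
          have h13 := hc2 k
          have h14 : ((inn (F k) (insert v ((S.erase v \ Y₀).filter fun x => c x = k))).card : ℝ)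
              ≤ ((inn (F k) ((S.erase v \ Y₀).filter fun x => c x = k)).card : ℝ) +
                (dg (F k) S v : ℝ) := by
            exact_mod_cast h11.trans (Nat.add_le_add_left h12 _)
          push_cast
          linarith
        · rw [if_neg hk]
          exact hc2 k'

open Classical in
/-- Either a subset of half of the points has large degrees, or a subset of positive proportion has
small degrees for one of the families. -/
theorem step [Fintype ι] (ha : ∀ k, 0 < a k) {H : ℕ} (hH : ∀ k, a k ≤ H) (hι : Nonempty ι) (τ : ι → ℝ)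
    (Z : Finset V) (hZ : Z.Nonempty) :
    (∃ Y, Y ⊆ Z ∧ Z.card ≤ 2 * Y.card ∧ Good F τ Y) ∨
    ∃ k, 0 < τ k ∧ ∃ W, W ⊆ Z ∧ Z.card ≤ 4 * Fintype.card ι * W.card ∧
      ∀ v ∈ W, (dg (F k) W v : ℝ) ≤ 2 * H * τ k := by
  obtain ⟨Y₀, hY₀, hgood, hmax⟩ := exists_largest F τ Z
  by_cases hbig : Z.card ≤ 2 * Y₀.card
  · exact Or.inl ⟨Y₀, hY₀, hbig, hgood⟩
  right
  push Not at hbig
  obtain ⟨c, hc1, hc2⟩ := exists_colour F ha hι τ Z Y₀ hmax hgood Z hY₀ subset_rfl
  have h1 : Z.card ≤ 2 * (Z \ Y₀).card := by
    have := Finset.card_sdiff_add_card_eq_card hY₀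
    omega
  have hpos : 0 < (Z \ Y₀).card := by
    have := hZ.card_pos
    omega
  obtain ⟨k, hk⟩ : ∃ k, (Z \ Y₀).card ≤
      Fintype.card ι * ((Z \ Y₀).filter fun v => c v = k).card := by
    by_contra hcon
    push Not at hcon
    have h2 : (Z \ Y₀).card = ∑ k : ι, ((Z \ Y₀).filter fun v => c v = k).card := by
      exact Finset.card_eq_sum_card_fiberwise (fun x _ => Finset.mem_coe.2 (Finset.mem_univ _))
    have h3 : ∑ k : ι, Fintype.card ι * ((Z \ Y₀).filter fun v => c v = k).card <
        ∑ _k : ι, (Z \ Y₀).card :=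
      Finset.sum_lt_sum_of_nonempty Finset.univ_nonempty fun k _ => hcon k
    rw [← Finset.mul_sum, ← h2, Finset.sum_const, Finset.card_univ, smul_eq_mul] at h3
    exact lt_irrefl _ h3
  let W₀ := (Z \ Y₀).filter fun v => c v = k
  have hW₀ : 0 < W₀.card := by
    by_contra h
    have h4 : W₀.card = 0 := by omega
    have : (Z \ Y₀).card ≤ Fintype.card ι * W₀.card := hk
    rw [h4, mul_zero] at this
    omega
  have hτ : 0 < τ k := by
    obtain ⟨v, hv⟩ := Finset.card_pos.1 hW₀
    have hv' := Finset.mem_filter.1 hv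
    have := hc1 v hv'.1
    rwa [hv'.2] at this
  refine ⟨k, hτ, W₀.filter fun v => (dg (F k) W₀ v : ℝ) ≤ 2 * H * τ k, ?_, ?_, ?_⟩
  · intro x hx
    exact (Finset.mem_sdiff.1 (Finset.mem_filter.1 (Finset.mem_filter.1 hx).1).1).1
  · -- at most half of the points have larger degrees
    have h5 : (∑ v ∈ W₀, (dg (F k) W₀ v : ℝ)) ≤ H * (τ k * W₀.card) := by
      have h6 : (∑ v ∈ W₀, (dg (F k) W₀ v : ℝ)) ≤ a k * ((inn (F k) W₀).card : ℝ) := by
        exact_mod_cast sum_dg (F := F k) W₀
      have h7 : ((inn (F k) W₀).card : ℝ) ≤ τ k * W₀.card := hc2 k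
      have h8 : (a k : ℝ) ≤ H := by exact_mod_cast hH k
      calc (∑ v ∈ W₀, (dg (F k) W₀ v : ℝ)) ≤ a k * ((inn (F k) W₀).card : ℝ) := h6
        _ ≤ a k * (τ k * W₀.card) := by gcongr
        _ ≤ H * (τ k * W₀.card) := by gcongr
    have h9 : ((W₀.filter fun v => ¬ (dg (F k) W₀ v : ℝ) ≤ 2 * H * τ k).card : ℝ) *
        (2 * H * τ k) ≤ ∑ v ∈ W₀, (dg (F k) W₀ v : ℝ) := by
      rw [← nsmul_eq_mul]
      refine le_trans (Finset.card_nsmul_le_sum _ (fun v => (dg (F k) W₀ v : ℝ)) _ ?_)
        (Finset.sum_le_sum_of_subset_of_nonneg (Finset.filter_subset _ _)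
          fun v _ _ => Nat.cast_nonneg _)
      intro v hv
      exact (not_le.1 (Finset.mem_filter.1 hv).2).le
    have hHpos : (0 : ℝ) < H := by
      have h10 := ha k
      have h11 := hH k
      exact_mod_cast lt_of_lt_of_le h10 h11
    have h12 : ((W₀.filter fun v => ¬ (dg (F k) W₀ v : ℝ) ≤ 2 * H * τ k).card : ℝ) * 2 ≤
        W₀.card := by
      have h13 : (0 : ℝ) < H * τ k := by positivity
      have h14 : ((W₀.filter fun v => ¬ (dg (F k) W₀ v : ℝ) ≤ 2 * H * τ k).card : ℝ) * 2 *
          (H * τ k) ≤ W₀.card * (H * τ k) := by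
        calc _ = ((W₀.filter fun v => ¬ (dg (F k) W₀ v : ℝ) ≤ 2 * H * τ k).card : ℝ) *
              (2 * H * τ k) := by ring
          _ ≤ ∑ v ∈ W₀, (dg (F k) W₀ v : ℝ) := h9
          _ ≤ H * (τ k * W₀.card) := h5
          _ = W₀.card * (H * τ k) := by ring
      exact le_of_mul_le_mul_right h14 h13
    have h15 : (W₀.filter fun v => ¬ (dg (F k) W₀ v : ℝ) ≤ 2 * H * τ k).card * 2 ≤ W₀.card := by
      exact_mod_cast h12
    have h16 := Finset.card_filter_add_card_filter_not (s := W₀)
      (fun v => (dg (F k) W₀ v : ℝ) ≤ 2 * H * τ k)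
    have h17 : W₀.card ≤ 2 * (W₀.filter fun v => (dg (F k) W₀ v : ℝ) ≤ 2 * H * τ k).card := by
      omega
    calc Z.card ≤ 2 * (Z \ Y₀).card := h1
      _ ≤ 2 * (Fintype.card ι * W₀.card) := Nat.mul_le_mul_left _ hk
      _ ≤ 2 * (Fintype.card ι *
          (2 * (W₀.filter fun v => (dg (F k) W₀ v : ℝ) ≤ 2 * H * τ k).card)) :=
          Nat.mul_le_mul_left _ (Nat.mul_le_mul_left _ h17)
      _ = 4 * Fintype.card ι *
          (W₀.filter fun v => (dg (F k) W₀ v : ℝ) ≤ 2 * H * τ k).card := by ring
  · intro v hv
    have h18 := (Finset.mem_filter.1 hv).2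
    have h19 := dg_mono (F := F k) (Finset.filter_subset
      (fun v => (dg (F k) W₀ v : ℝ) ≤ 2 * H * τ k) W₀) v
    have h20 : (dg (F k) (W₀.filter fun v => (dg (F k) W₀ v : ℝ) ≤ 2 * H * τ k) v : ℝ) ≤
        dg (F k) W₀ v := by exact_mod_cast h19
    exact h20.trans h18

/-- **Regularisation**, with the powers of `lam` as scales. -/
theorem regular_aux [Fintype ι] (ha : ∀ k, 0 < a k) {H : ℕ} (hH : ∀ k, a k ≤ H) (hι : Nonempty ι)
    {B lam : ℝ} (hB : 0 < B) (hl : 0 < lam) (J : ℕ) (hJ : B * lam ^ J < 1) :
    ∀ (m : ℕ) (Z : Finset V) (j : ι → ℕ), Z.Nonempty → (∀ k, j k ≤ J) →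
      ∑ k, (J - j k) ≤ m → (∀ k, ∀ v ∈ Z, (dg (F k) Z v : ℝ) ≤ B * lam ^ j k) →
      ∃ Y, Y ⊆ Z ∧ Y.Nonempty ∧ Z.card ≤ (4 * Fintype.card ι) ^ (m + 1) * Y.card ∧
        ∀ k, ∀ u ∈ Y, ∀ v ∈ Y, (dg (F k) Y u : ℝ) ≤ 2 * H / lam * dg (F k) Y v := by
  have hK : 1 ≤ Fintype.card ι := Fintype.card_pos
  have hHpos : (0 : ℝ) < H := by
    have h10 := ha hι.some
    have h11 := hH hι.some
    exact_mod_cast lt_of_lt_of_le h10 h11
  intro m
  induction m with
  | zero =>
    intro Z j hZ hj hm hdeg
    rcases step F ha hH hι (fun k => if j k < J then B * lam ^ (j k + 1) / (2 * H) else 0) Z hZ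
      with ⟨Y, hYZ, hcard, hY⟩ | ⟨k, hk, _⟩
    · refine ⟨Y, hYZ, ?_, ?_, ?_⟩
      · rw [← Finset.card_pos]
        have := hZ.card_pos
        omega
      · calc Z.card ≤ 2 * Y.card := hcard
          _ ≤ (4 * Fintype.card ι) ^ (0 + 1) * Y.card := by
            apply Nat.mul_le_mul_right
            rw [zero_add, pow_one]
            omega
      · intro k u hu v hv
        have h0 : J - j k = 0 := by
          have := Finset.sum_eq_zero_iff.1 (Nat.le_zero.1 hm) k (Finset.mem_univ k)
          exact this
        have h1 : j k = J := by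
          have := hj k
          omega
        have h2 : (dg (F k) Y u : ℝ) < 1 := by
          have h3 : (dg (F k) Y u : ℝ) ≤ dg (F k) Z u := by exact_mod_cast dg_mono hYZ u
          have h4 := hdeg k u (hYZ hu)
          rw [h1] at h4
          linarith
        have h3 : dg (F k) Y u = 0 := by
          have : dg (F k) Y u < 1 := by exact_mod_cast h2
          omega
        rw [h3]
        push_cast
        positivity
    · exfalso
      have h0 : J - j k = 0 := Finset.sum_eq_zero_iff.1 (Nat.le_zero.1 hm) k (Finset.mem_univ k)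
      have h1 : ¬ j k < J := by omega
      simp only [if_neg h1] at hk
      exact lt_irrefl _ hk
  | succ m ih =>
    intro Z j hZ hj hm hdeg
    rcases step F ha hH hι (fun k => if j k < J then B * lam ^ (j k + 1) / (2 * H) else 0) Z hZ
      with ⟨Y, hYZ, hcard, hY⟩ | ⟨k, hk, W, hWZ, hWcard, hW⟩
    · refine ⟨Y, hYZ, ?_, ?_, ?_⟩
      · rw [← Finset.card_pos]
        have := hZ.card_pos
        omega
      · calc Z.card ≤ 2 * Y.card := hcard
          _ ≤ (4 * Fintype.card ι) ^ (m + 1 + 1) * Y.card := by
            apply Nat.mul_le_mul_right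
            calc 2 ≤ 4 * Fintype.card ι := by omega
              _ = (4 * Fintype.card ι) ^ 1 := (pow_one _).symm
              _ ≤ (4 * Fintype.card ι) ^ (m + 1 + 1) :=
                Nat.pow_le_pow_right (by omega) (by omega)
      · intro k u hu v hv
        have h3 : (dg (F k) Y u : ℝ) ≤ dg (F k) Z u := by exact_mod_cast dg_mono hYZ u
        have h4 := hdeg k u (hYZ hu)
        by_cases hjk : j k < J
        · have h5 := hY k v hv
          simp only [if_pos hjk] at h5
          have h6 : B * lam ^ j k = 2 * H / lam * (B * lam ^ (j k + 1) / (2 * H)) := by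
            rw [pow_succ]
            field_simp
          calc (dg (F k) Y u : ℝ) ≤ B * lam ^ j k := h3.trans h4
            _ = 2 * H / lam * (B * lam ^ (j k + 1) / (2 * H)) := h6
            _ ≤ 2 * H / lam * dg (F k) Y v := by gcongr
        · have h1 : j k = J := by
            have := hj k
            omega
          rw [h1] at h4
          have h2 : dg (F k) Y u < 1 := by
            have : (dg (F k) Y u : ℝ) < 1 := by linarith
            exact_mod_cast this
          have h7 : dg (F k) Y u = 0 := by omega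
          rw [h7]
          push_cast
          positivity
    · have hjk : j k < J := by
        by_contra h
        simp only [if_neg h] at hk
        exact lt_irrefl _ hk
      have hWne : W.Nonempty := by
        rw [← Finset.card_pos]
        by_contra h
        have h1 : W.card = 0 := by omega
        rw [h1, mul_zero] at hWcard
        have := hZ.card_pos
        omega
      classical
      have hsum : ∑ i, (J - Function.update j k (j k + 1) i) ≤ m := by
        have h1 : ∑ i, (J - Function.update j k (j k + 1) i) < ∑ i, (J - j i) := by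
          refine Finset.sum_lt_sum (fun i _ => ?_) ⟨k, Finset.mem_univ k, ?_⟩
          · by_cases hik : i = k
            · subst hik
              rw [Function.update_self]
              omega
            · rw [Function.update_of_ne hik]
          · rw [Function.update_self]
            omega
        omega
      obtain ⟨Y, hYW, hYne, hYcard, hY⟩ := ih W (Function.update j k (j k + 1)) hWne
        (fun i => by
          by_cases hik : i = k
          · subst hik
            rw [Function.update_self]
            omega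
          · rw [Function.update_of_ne hik]
            exact hj i) hsum
        (fun i v hv => by
          by_cases hik : i = k
          · subst hik
            rw [Function.update_self]
            have h1 := hW v hv
            simp only [if_pos hjk] at h1
            have h2 : 2 * (H : ℝ) * (B * lam ^ (j i + 1) / (2 * H)) = B * lam ^ (j i + 1) := by
              field_simp
            rwa [h2] at h1
          · rw [Function.update_of_ne hik]
            have h1 : (dg (F i) W v : ℝ) ≤ dg (F i) Z v := by exact_mod_cast dg_mono hWZ v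
            exact h1.trans (hdeg i v (hWZ hv)))
      refine ⟨Y, hYW.trans hWZ, hYne, ?_, hY⟩
      calc Z.card ≤ 4 * Fintype.card ι * W.card := hWcard
        _ ≤ 4 * Fintype.card ι * ((4 * Fintype.card ι) ^ (m + 1) * Y.card) :=
          Nat.mul_le_mul_left _ hYcard
        _ = (4 * Fintype.card ι) ^ (m + 1 + 1) * Y.card := by ring

/-- **Regularisation.** Let `F k` be finitely many families of tuples on a finite set `Z` of at most
`N` elements. There is a subset `Y` of `Z`, of a positive proportion that depends only on the number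
of families, on the length `H` of the tuples and on `J`, such that any two elements of `Y` are in
the same number of tuples of `F k` in `Y`, up to the factor `2 H / lam`, as soon as
`N ^ H lam ^ J < 1`. -/
theorem regular [Fintype ι] (ha : ∀ k, 0 < a k) {H : ℕ} (hH : ∀ k, a k ≤ H) (hι : Nonempty ι)
    {N lam : ℝ} (hN : 1 ≤ N) (hl : 0 < lam) (J : ℕ) (hJ : N ^ H * lam ^ J < 1)
    (Z : Finset V) (hZ : Z.Nonempty) (hZN : (Z.card : ℝ) ≤ N) :
    ∃ Y, Y ⊆ Z ∧ Y.Nonempty ∧
      Z.card ≤ (4 * Fintype.card ι) ^ (Fintype.card ι * J + 1) * Y.card ∧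
      ∀ k, ∀ u ∈ Y, ∀ v ∈ Y, (dg (F k) Y u : ℝ) ≤ 2 * H / lam * dg (F k) Y v := by
  refine regular_aux F ha hH hι (B := N ^ H) (by positivity) hl J hJ (Fintype.card ι * J) Z
    (fun _ => 0) hZ (fun _ => Nat.zero_le _) ?_ ?_
  · simp
  · intro k v _
    have h1 : (dg (F k) Z v : ℝ) ≤ (Z.card : ℝ) ^ a k := by exact_mod_cast dg_le Z v
    have h2 : (Z.card : ℝ) ^ a k ≤ N ^ a k := pow_le_pow_left₀ (Nat.cast_nonneg _) hZN _
    have h3 : N ^ a k ≤ N ^ H := pow_le_pow_right₀ hN (hH k)
    simpa using h1.trans (h2.trans h3)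

end Pool.Agent.U26.HM
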