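import Pool.Agent.U26.HM.Core
import Pool.Agent.U26.SP.Limits
import Pool.Agent.H818R2.Kiss4

/-! Homogeneous sets of unit vectors (helper26). -/

set_option autoImplicit false

open Filter Pool.Agent.H818R2
open scoped InnerProductSpace Topology

namespace Pool.Agent.U26.HM

/-- The number of the sequences of `h` points of `Y` which contain the point `y` and have the shape
`k` at the resolution `1 / M`: all inner products `⟪z i, z j⟫` are in
`[k i j / M, (k i j + 1) / M)`. -/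
noncomputable def shapes {n : ℕ} (Y : Finset (EuclideanSpace ℝ (Fin n))) (M h : ℕ)
    (k : Fin h → Fin h → ℤ) (y : EuclideanSpace ℝ (Fin n)) : ℕ :=
  {z : Fin h → EuclideanSpace ℝ (Fin n) | (∀ i, z i ∈ Y) ∧ (∃ i, z i = y) ∧
    ∀ i j, ⌊(M : ℝ) * ⟪z i, z j⟫_ℝ⌋ = k i j}.ncard

/-- `Y` is `m`-homogeneous: for all `h ≤ m`, `M ≤ m` and all shapes `k` of `h` points at the
resolution `1 / M` the numbers of the sequences of the shape `k` in `Y` through any two points of `Y`
agree up to the factor `exp (n / m)`. -/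
def Homogeneous (m : ℕ) {n : ℕ} (Y : Finset (EuclideanSpace ℝ (Fin n))) : Prop :=
  ∀ M h : ℕ, M ≤ m → h ≤ m → ∀ k : Fin h → Fin h → ℤ, ∀ x ∈ Y, ∀ y ∈ Y,
    (shapes Y M h k x : ℝ) ≤ Real.exp ((n : ℝ) / m) * shapes Y M h k y

theorem homogeneous_zero {n : ℕ} (Y : Finset (EuclideanSpace ℝ (Fin n))) : Homogeneous 0 Y := by
  intro M h _ hh k x _ y _
  have h0 : h = 0 := Nat.le_zero.1 hh
  subst h0
  have : ∀ y, shapes Y M 0 k y = 0 := by
    intro y
    unfold shapes
    have : {z : Fin 0 → EuclideanSpace ℝ (Fin n) | (∀ i, z i ∈ Y) ∧ (∃ i, z i = y) ∧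
        ∀ i j, ⌊(M : ℝ) * ⟪z i, z j⟫_ℝ⌋ = k i j} = ∅ := by
      ext z
      simp
    rw [this, Set.ncard_empty]
  rw [this, this]
  simp

theorem Homogeneous.anti {m m' n : ℕ} (hmm : m ≤ m') {Y : Finset (EuclideanSpace ℝ (Fin n))}
    (hY : Homogeneous m' Y) : Homogeneous m Y := by
  rcases Nat.eq_zero_or_pos m with rfl | hm
  · exact homogeneous_zero Y
  intro M h hM hh k x hx y hy
  refine (hY M h (hM.trans hmm) (hh.trans hmm) k x hx y hy).trans ?_
  have h1 : (n : ℝ) / m' ≤ n / m := by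
    have h2 : (m : ℝ) ≤ m' := by exact_mod_cast hmm
    have h3 : (0 : ℝ) < m := by exact_mod_cast hm
    gcongr
  gcongr

theorem homogeneous_singleton {m n : ℕ} (x : EuclideanSpace ℝ (Fin n)) :
    Homogeneous m {x} := by
  intro M h _ _ k u hu v hv
  rw [Finset.mem_singleton] at hu hv
  rw [hu, hv]
  have h1 : 1 ≤ Real.exp ((n : ℝ) / m) := Real.one_le_exp (by positivity)
  have h2 : (0 : ℝ) ≤ shapes {x} M h k x := Nat.cast_nonneg _
  nlinarith

theorem homogeneous_empty {m n : ℕ} : Homogeneous m (∅ : Finset (EuclideanSpace ℝ (Fin n))) := by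
  intro M h _ _ k u hu
  exact absurd hu (Finset.notMem_empty _)

/-- the index set of the shapes -/
abbrev Idx (m : ℕ) : Type :=
  Σ h : Fin m, (Σ _M : Fin (m + 1), (Fin (h.1 + 1) → Fin (h.1 + 1) → Fin (2 * m + 1)))

/-- the families -/
def fam (m n : ℕ) (k : Idx m) (z : Fin (k.1.1 + 1) → EuclideanSpace ℝ (Fin n)) : Prop :=
  ∀ i j, ⌊((k.2.1 : ℕ) : ℝ) * ⟪z i, z j⟫_ℝ⌋ = ((k.2.2 i j : ℕ) : ℤ) - m

theorem shapes_eq {m n : ℕ} (Y : Finset (EuclideanSpace ℝ (Fin n))) (k : Idx m)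
    (y : EuclideanSpace ℝ (Fin n)) :
    shapes Y k.2.1 (k.1.1 + 1) (fun i j => ((k.2.2 i j : ℕ) : ℤ) - m) y =
      dg (fam m n k) Y y := by
  classical
  unfold shapes dg
  rw [← Set.ncard_coe_finset]
  congr 1
  ext z
  simp only [Finset.coe_filter, mem_inn, Set.mem_ofPred_eq, fam]
  tauto

theorem exists_idx {m n : ℕ} {Y : Finset (EuclideanSpace ℝ (Fin n))} (hY : ∀ x ∈ Y, ‖x‖ = 1)
    {M h : ℕ} (hM : M ≤ m) (hh : h + 1 ≤ m) (k : Fin (h + 1) → Fin (h + 1) → ℤ)
    (hne : ∃ z : Fin (h + 1) → EuclideanSpace ℝ (Fin n), (∀ i, z i ∈ Y) ∧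
      ∀ i j, ⌊(M : ℝ) * ⟪z i, z j⟫_ℝ⌋ = k i j) :
    ∃ k' : Fin (h + 1) → Fin (h + 1) → Fin (2 * m + 1),
      k = fun i j => ((k' i j : ℕ) : ℤ) - m := by
  obtain ⟨z, hz, hk⟩ := hne
  have h1 : ∀ i j, -(m : ℤ) ≤ k i j ∧ k i j ≤ m := by
    intro i j
    have h2 : |⟪z i, z j⟫_ℝ| ≤ 1 := by
      have := abs_real_inner_le_norm (z i) (z j)
      rwa [hY _ (hz i), hY _ (hz j), one_mul] at this
    have h3 := abs_le.1 h2
    have h4 : (M : ℝ) ≤ m := by exact_mod_cast hM
    have h5 : (0 : ℝ) ≤ M := Nat.cast_nonneg _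
    rw [← hk i j]
    constructor
    · rw [Int.le_floor]
      push_cast
      nlinarith
    · have h6 : ⌊(M : ℝ) * ⟪z i, z j⟫_ℝ⌋ ≤ ⌊((m : ℤ) : ℝ)⌋ := by
        apply Int.floor_le_floor
        push_cast
        nlinarith
      rwa [Int.floor_intCast] at h6
  refine ⟨fun i j => ⟨(k i j + m).toNat, ?_⟩, ?_⟩
  · have := h1 i j
    omega
  · funext i j
    have := h1 i j
    show k i j = (((k i j + m).toNat : ℕ) : ℤ) - m
    omega

/-- **Homogeneous subsets.** -/
theorem exists_homogeneous (D : ℝ) (m : ℕ) : ∃ c : ℝ, 0 < c ∧ ∀ (n : ℕ)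
    (X : Finset (EuclideanSpace ℝ (Fin n))), (∀ x ∈ X, ‖x‖ = 1) →
    (X.card : ℝ) ≤ Real.exp (D * n) →
    ∃ Y, Y ⊆ X ∧ Homogeneous m Y ∧ c * X.card ≤ Y.card := by
  rcases Nat.eq_zero_or_pos m with rfl | hm
  · exact ⟨1, one_pos, fun n X _ _ => ⟨X, subset_rfl, homogeneous_zero X, by rw [one_mul]⟩⟩
  have hm' : (0 : ℝ) < m := by exact_mod_cast hm
  have hD : D ≤ |D| := le_abs_self D
  obtain ⟨J, hJ⟩ := exists_nat_gt (2 * |D| * m ^ 2)
  obtain ⟨n₀, hn₀⟩ := exists_nat_gt (2 * m * Real.log (2 * m))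
  have hι : Nonempty (Idx m) := ⟨⟨⟨0, hm⟩, ⟨0, fun _ _ => 0⟩⟩⟩
  have hK : 1 ≤ Fintype.card (Idx m) := Fintype.card_pos
  refine ⟨min (Real.exp (-(|D| * n₀))) (1 / ((4 * Fintype.card (Idx m) : ℕ) : ℝ) ^
    (Fintype.card (Idx m) * J + 1)), ?_, ?_⟩
  · apply lt_min (Real.exp_pos _)
    positivity
  intro n X hX hXc
  rcases X.eq_empty_or_nonempty with rfl | hne
  · exact ⟨∅, subset_rfl, homogeneous_empty, by simp⟩
  by_cases hn : n < n₀ + 1
  · -- small dimensions
    obtain ⟨x, hx⟩ := hne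
    refine ⟨{x}, Finset.singleton_subset_iff.2 hx, homogeneous_singleton x, ?_⟩
    rw [Finset.card_singleton]
    have h1 : (X.card : ℝ) ≤ Real.exp (|D| * n₀) := by
      refine hXc.trans (Real.exp_le_exp.2 ?_)
      have h2 : (n : ℝ) ≤ n₀ := by exact_mod_cast Nat.lt_succ_iff.1 hn
      have h3 : (0 : ℝ) ≤ n := Nat.cast_nonneg _
      calc D * n ≤ |D| * n := by gcongr
        _ ≤ |D| * n₀ := by gcongr
    calc min (Real.exp (-(|D| * n₀))) (1 / ((4 * Fintype.card (Idx m) : ℕ) : ℝ) ^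
          (Fintype.card (Idx m) * J + 1)) * X.card ≤
          Real.exp (-(|D| * n₀)) * Real.exp (|D| * n₀) := by
            gcongr
            exact min_le_left _ _
      _ = ((1 : ℕ) : ℝ) := by
        rw [← Real.exp_add, neg_add_cancel, Real.exp_zero, Nat.cast_one]
  · push Not at hn
    have hn1 : (n₀ : ℝ) + 1 ≤ n := by exact_mod_cast hn
    have hnpos : (0 : ℝ) < n := by
      have : (0 : ℝ) ≤ n₀ := Nat.cast_nonneg _
      linarith
    have hlog : Real.log (2 * m) < n / (2 * m) := by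
      rw [lt_div_iff₀ (by positivity)]
      nlinarith
    -- the scale
    have hlam : (0 : ℝ) < 2 * m * Real.exp (-(n / m)) := by positivity
    have hJ1 : Real.exp (|D| * n) ^ m * (2 * m * Real.exp (-((n : ℝ) / m))) ^ J < 1 := by
      have e1 : (2 * m * Real.exp (-((n : ℝ) / m))) =
          Real.exp (Real.log (2 * m) - n / m) := by
        rw [Real.exp_sub, Real.exp_log (by positivity), Real.exp_neg]
        field_simp
      rw [e1, ← Real.exp_nat_mul, ← Real.exp_nat_mul, ← Real.exp_add]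
      rw [Real.exp_lt_one_iff]
      have h3 : Real.log (2 * m) - n / m ≤ -(n / (2 * m)) := by
        have : (n : ℝ) / m = n / (2 * m) + n / (2 * m) := by field_simp; ring
        linarith
      have h4 : (J : ℝ) * (Real.log (2 * m) - n / m) ≤ J * (-(n / (2 * m))) := by
        gcongr
      have h5 : (m : ℝ) * (|D| * n) < J * (n / (2 * m)) := by
        rw [mul_div_assoc', lt_div_iff₀ (by positivity)]
        calc (m : ℝ) * (|D| * n) * (2 * m) = (2 * |D| * m ^ 2) * n := by ring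
          _ < J * n := by gcongr
      linarith
    obtain ⟨Y, hYX, -, hYc, hY⟩ := regular (fam m n) (a := fun k : Idx m => k.1.1 + 1)
      (fun k => Nat.succ_pos _) (H := m) (fun k => k.1.2) hι
      (N := Real.exp (|D| * n)) (lam := 2 * m * Real.exp (-((n : ℝ) / m)))
      (Real.one_le_exp (by positivity)) hlam J hJ1 X hne
      (hXc.trans (Real.exp_le_exp.2 (by gcongr)))
    refine ⟨Y, hYX, ?_, ?_⟩
    · intro M h hM hh k x hx y hy
      rcases Nat.eq_zero_or_pos h with rfl | hpos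
      · have := homogeneous_zero Y 0 0 le_rfl le_rfl (fun i => i.elim0) x hx y hy
        have h6 : ∀ y, shapes Y M 0 k y = 0 := by
          intro y
          unfold shapes
          have : {z : Fin 0 → EuclideanSpace ℝ (Fin n) | (∀ i, z i ∈ Y) ∧ (∃ i, z i = y) ∧
              ∀ i j, ⌊(M : ℝ) * ⟪z i, z j⟫_ℝ⌋ = k i j} = ∅ := by
            ext z
            simp
          rw [this, Set.ncard_empty]
        rw [h6, h6]
        simp
      · obtain ⟨h, rfl⟩ : ∃ h', h = h' + 1 := ⟨h - 1, by omega⟩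
        by_cases hex : ∃ z : Fin (h + 1) → EuclideanSpace ℝ (Fin n), (∀ i, z i ∈ Y) ∧
            ∀ i j, ⌊(M : ℝ) * ⟪z i, z j⟫_ℝ⌋ = k i j
        · obtain ⟨k', rfl⟩ := exists_idx (fun x hx => hX x (hYX hx)) hM hh k hex
          have h7 := hY ⟨⟨h, hh⟩, ⟨⟨M, Nat.lt_succ_of_le hM⟩, k'⟩⟩ x hx y hy
          have h8 := shapes_eq Y (⟨⟨h, hh⟩, ⟨⟨M, Nat.lt_succ_of_le hM⟩, k'⟩⟩ : Idx m)
          have h9 : 2 * (m : ℝ) / (2 * m * Real.exp (-((n : ℝ) / m))) =
              Real.exp ((n : ℝ) / m) := by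
            rw [Real.exp_neg]
            field_simp
          rw [h9, ← h8, ← h8] at h7
          exact h7
        · have h6 : ∀ y, shapes Y M (h + 1) k y = 0 := by
            intro y
            unfold shapes
            have : {z : Fin (h + 1) → EuclideanSpace ℝ (Fin n) | (∀ i, z i ∈ Y) ∧
                (∃ i, z i = y) ∧ ∀ i j, ⌊(M : ℝ) * ⟪z i, z j⟫_ℝ⌋ = k i j} = ∅ := by
              rw [Set.eq_empty_iff_forall_notMem]
              rintro z ⟨hz1, -, hz2⟩
              exact hex ⟨z, hz1, hz2⟩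
            rw [this, Set.ncard_empty]
          rw [h6, h6]
          simp
    · have hpos : (0 : ℝ) < ((4 * Fintype.card (Idx m) : ℕ) : ℝ) ^
          (Fintype.card (Idx m) * J + 1) := by positivity
      have h10 : (X.card : ℝ) ≤ ((4 * Fintype.card (Idx m) : ℕ) : ℝ) ^
          (Fintype.card (Idx m) * J + 1) * Y.card := by exact_mod_cast hYc
      calc min (Real.exp (-(|D| * n₀))) (1 / ((4 * Fintype.card (Idx m) : ℕ) : ℝ) ^
            (Fintype.card (Idx m) * J + 1)) * X.card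
          ≤ 1 / ((4 * Fintype.card (Idx m) : ℕ) : ℝ) ^
            (Fintype.card (Idx m) * J + 1) * X.card := by
            gcongr
            exact min_le_right _ _
        _ ≤ 1 / ((4 * Fintype.card (Idx m) : ℕ) : ℝ) ^ (Fintype.card (Idx m) * J + 1) *
            (((4 * Fintype.card (Idx m) : ℕ) : ℝ) ^ (Fintype.card (Idx m) * J + 1) * Y.card) := by
            gcongr
        _ = Y.card := by field_simp

end Pool.Agent.U26.HM
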